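import Pool.Agent.Lib_MP_cc9a35_rb.Main

/-!
Adaptive versus non-adaptive query complexity in the dense graph model: the set of achievable
exponents `c` in `[1, 2]` is the whole interval `[1, 2]`, and the lower bounds hold for every small
`ε` and all large numbers `N` of vertices.

Idea (for `c = 1 + 4 / a`, `a ≥ 4`). There is one family of graphs for each scale `i`; write
`u = 16 ^ i`, `G = u ^ 12`, `e ≈ u ^ (2 (a - 3))`. A graph of the scale `i` has a part with `N / u`
vertices, which is a blow-up of a threshold graph with `t = O(i)` types, and a part with at most
`N / u ^ 2` vertices which have labels in `Z_G × [e]`; the neighbours of a vertex among the `t` types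
encode its label. Two vertices with different labels are adjacent according to bits which depend on
the two labels only; the pairs of labels are divided into `G` cells (by the sum of the first
components), and in each cell the bits form one of few vectors which look random on every set of
`d = G e ^ 2 / polylog` coordinates. Given representatives of the `t` types, which are easy to find,
a label is read off by `t` queries, so an adaptive algorithm can look at one whole cell with about
`G e ^ 2 = u ^ (4 a)` queries. A non-adaptive algorithm sees more than `d` coordinates of some cell
only if it asks about `(G e u ^ 2) ^ 2 = u ^ (4 (a + 4))` queries. The scale matters for `ε` about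
`u ^ (-4)`. The property is the union of all scales, so for every `ε` the hard graphs exist for all
large `N`; no sizes of label classes have to be tested, and this keeps the testers efficient for all
`ε` and all scales.
-/

namespace Pool.Agent.Results.MP_cc9a35_lc.RobustExponents

open Pool.Agent.Lib_MP_cc9a35_lc Pool.Agent.Lib_MP_cc9a35_rb

/-- The set of achievable constants in `[1, 2]` is all of `[1, 2]`, with lower bounds for all large
numbers of vertices. -/
theorem result : {c : ℝ | c ∈ Set.Icc (1 : ℝ) 2 ∧ RobustlyAchievable c} = Set.Icc (1 : ℝ) 2 := by
  ext c
  exact ⟨fun h => h.1, fun h => ⟨h, robust_all h⟩⟩

end Pool.Agent.Results.MP_cc9a35_lc.RobustExponents
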